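import Pool.Agent.N300.UN.Stubs

/-!
# The zigzag lemma
-/

set_option autoImplicit false

open scoped ComplexConjugate Matrix

noncomputable section

namespace Pool.Agent.N861.UN

open Pool.Agent.H923R2.FP Pool.Agent.H923R2.FZ Pool.Agent.N300.UN

/-! ### a path of unitary matrices from `1` to a cyclic permutation matrix -/

/-- `exp (2 π i x)` -/
def ee (x : ℝ) : ℂ := Complex.exp (((2 * Real.pi * x : ℝ) : ℂ) * Complex.I)

lemma ee_zero : ee 0 = 1 := by simp [ee]

lemma ee_add (x y : ℝ) : ee (x + y) = ee x * ee y := by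
  unfold ee
  rw [← Complex.exp_add]
  congr 1
  push_cast
  ring

lemma star_ee (x : ℝ) : star (ee x) = ee (-x) := by
  unfold ee
  rw [← starRingEnd_apply, ← Complex.exp_conj, map_mul, Complex.conj_ofReal, Complex.conj_I]
  congr 1
  push_cast
  ring

lemma ee_int (k : ℤ) : ee k = 1 := by
  unfold ee
  rw [Complex.exp_eq_one_iff]
  exact ⟨k, by push_cast; ring⟩

lemma ee_pow (x : ℝ) (n : ℕ) : ee x ^ n = ee (n * x) := by
  unfold ee
  rw [← Complex.exp_nat_mul]
  congr 1
  push_cast
  ring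

lemma ee_eq_one {x : ℝ} (h : ee x = 1) : ∃ k : ℤ, x = k := by
  unfold ee at h
  rw [Complex.exp_eq_one_iff] at h
  obtain ⟨k, hk⟩ := h
  refine ⟨k, ?_⟩
  have h2 : ((2 * Real.pi * x : ℝ) : ℂ) = ((2 * Real.pi * k : ℝ) : ℂ) := by
    apply mul_right_cancel₀ Complex.I_ne_zero
    rw [hk]
    push_cast
    ring
  have h3 : 2 * Real.pi * x = 2 * Real.pi * k := by exact_mod_cast h2
  exact mul_left_cancel₀ (by positivity) h3

lemma orth {N : ℕ} (hN : 0 < N) (d : ℤ) :
    ∑ l : Fin N, ee ((l : ℝ) * (d / N)) = if (N : ℤ) ∣ d then (N : ℂ) else 0 := by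
  have hN' : (N : ℝ) ≠ 0 := by exact_mod_cast hN.ne'
  have h : ∀ l : Fin N, ee ((l : ℝ) * (d / N)) = (ee ((d : ℝ) / N)) ^ (l : ℕ) := by
    intro l
    rw [ee_pow]
  simp_rw [h]
  rw [Fin.sum_univ_eq_sum_range (fun l => ee ((d : ℝ) / N) ^ l) N]
  split_ifs with hd
  · obtain ⟨k, rfl⟩ := hd
    have h1 : ee (((((N : ℤ) * k : ℤ)) : ℝ) / N) = 1 := by
      have : ((((N : ℤ) * k : ℤ)) : ℝ) / N = (k : ℝ) := by
        push_cast
        field_simp
      rw [this, ee_int]
    rw [h1]
    simp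
  · have hne : ee ((d : ℝ) / N) ≠ 1 := by
      intro h1
      obtain ⟨k, hk⟩ := ee_eq_one h1
      apply hd
      refine ⟨k, ?_⟩
      rw [div_eq_iff hN'] at hk
      have : (d : ℝ) = ((k * N : ℤ) : ℝ) := by rw [hk]; push_cast; ring
      have h2 : d = k * N := by exact_mod_cast this
      rw [h2]; ring
    have hp : ee ((d : ℝ) / N) ^ N = 1 := by
      rw [ee_pow]
      have : (N : ℝ) * (d / N) = ((d : ℤ) : ℝ) := by field_simp
      rw [this, ee_int]
    rw [geom_sum_eq hne, hp, sub_self, zero_div]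

/-- the Fourier matrix -/
def DD (N : ℕ) : Matrix (Fin N) (Fin N) ℂ := fun j l =>
  (((Real.sqrt N)⁻¹ : ℝ) : ℂ) * ee ((l : ℝ) * ((j : ℝ) / N))

/-- the general entry of `D diag(exp (2 π i l r)) D*` -/
lemma DD_entry {N : ℕ} (hN : 0 < N) (j k : Fin N) (r : ℤ) :
    ∑ l : Fin N, DD N j l * ee ((l : ℝ) * (r / N)) * star (DD N k l) =
      if (N : ℤ) ∣ (j : ℤ) - k + r then 1 else 0 := by
  have hN' : (0 : ℝ) < N := by exact_mod_cast hN
  have h1 : ∀ l : Fin N, DD N j l * ee ((l : ℝ) * (r / N)) * star (DD N k l) =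
      (((N : ℝ)⁻¹ : ℝ) : ℂ) * ee ((l : ℝ) * ((((j : ℤ) - k + r : ℤ) : ℝ) / N)) := by
    intro l
    unfold DD
    rw [star_mul', star_ee]
    have e1 : star ((((Real.sqrt N)⁻¹ : ℝ) : ℂ)) = (((Real.sqrt N)⁻¹ : ℝ) : ℂ) := by
      rw [← starRingEnd_apply, Complex.conj_ofReal]
    have e2 : (((N : ℝ)⁻¹ : ℝ) : ℂ) =
        (((Real.sqrt N)⁻¹ : ℝ) : ℂ) * (((Real.sqrt N)⁻¹ : ℝ) : ℂ) := by
      rw [← Complex.ofReal_mul]
      congr 1
      rw [← mul_inv, Real.mul_self_sqrt hN'.le]
    have e3 : ee ((l : ℝ) * ((((j : ℤ) - k + r : ℤ) : ℝ) / N)) =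
        ee ((l : ℝ) * ((j : ℝ) / N)) * ee ((l : ℝ) * (r / N)) * ee (-((l : ℝ) * ((k : ℝ) / N))) := by
      rw [← ee_add, ← ee_add]
      congr 1
      push_cast
      ring
    rw [e1, e2, e3]
    ring
  simp_rw [h1]
  rw [← Finset.mul_sum, orth hN]
  split_ifs
  · rw [← Complex.ofReal_natCast, ← Complex.ofReal_mul, inv_mul_cancel₀ hN'.ne']
    simp
  · simp

lemma dvd_small {N : ℕ} {j k : Fin N} (h : (N : ℤ) ∣ (j : ℤ) - k) : j = k := by
  have h1 := j.2
  have h2 := k.2
  have h3 : |(j : ℤ) - k| < N := by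
    rw [abs_lt]
    constructor <;> omega
  have h4 := Int.eq_zero_of_abs_lt_dvd h h3
  ext
  omega

lemma DD_unit {N : ℕ} (hN : 0 < N) : DD N * (DD N)ᴴ = 1 := by
  ext j k
  rw [Matrix.mul_apply, Matrix.one_apply]
  have h := DD_entry hN j k 0
  simp only [Int.cast_zero, zero_div, mul_zero, ee_zero, mul_one, add_zero] at h
  simp only [Matrix.conjTranspose_apply]
  rw [h]
  by_cases hjk : j = k
  · rw [if_pos hjk, if_pos (by rw [hjk]; simp)]
  · rw [if_neg hjk, if_neg (fun h => hjk (dvd_small h))]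

/-- the diagonal functions -/
def dg {N : ℕ} (l : Fin N) : C(ℝ, ℂ) :=
  ⟨fun r => ee ((l : ℝ) * (r / N)), by unfold ee; fun_prop⟩

/-- the path of unitary matrices -/
def WW (N : ℕ) : Matrix (Fin N) (Fin N) C(ℝ, ℂ) :=
  (DD N).map (algebraMap ℂ C(ℝ, ℂ)) * Matrix.diagonal dg * ((DD N).map (algebraMap ℂ C(ℝ, ℂ)))ᴴ

lemma DD_unit' {N : ℕ} (hN : 0 < N) :
    (DD N).map (algebraMap ℂ C(ℝ, ℂ)) * ((DD N).map (algebraMap ℂ C(ℝ, ℂ)))ᴴ = 1 := by
  have h1 : ((DD N).map (algebraMap ℂ C(ℝ, ℂ)))ᴴ = ((DD N)ᴴ).map (algebraMap ℂ C(ℝ, ℂ)) := by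
    ext j k r
    rfl
  rw [h1, ← Matrix.map_mul, DD_unit hN]
  exact Matrix.map_one _ (map_zero _) (map_one _)

lemma dg_unit {N : ℕ} (l : Fin N) : dg l * star (dg l) = 1 := by
  ext r
  show ee ((l : ℝ) * (r / N)) * star (ee ((l : ℝ) * (r / N))) = 1
  rw [star_ee, ← ee_add, add_neg_cancel, ee_zero]

lemma WW_unit {N : ℕ} (hN : 0 < N) : WW N * (WW N)ᴴ = 1 := by
  have h1 := DD_unit' hN
  have h2 := mul_eq_one_comm.1 h1
  have h3 : (Matrix.diagonal (dg : Fin N → C(ℝ, ℂ))) * (Matrix.diagonal dg)ᴴ = 1 := by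
    rw [Matrix.diagonal_conjTranspose, Matrix.diagonal_mul_diagonal, ← Matrix.diagonal_one]
    congr 1
    funext l
    exact dg_unit l
  unfold WW
  set D := (DD N).map (algebraMap ℂ C(ℝ, ℂ))
  set E := (Matrix.diagonal (dg : Fin N → C(ℝ, ℂ)))
  rw [Matrix.conjTranspose_mul, Matrix.conjTranspose_mul, Matrix.conjTranspose_conjTranspose]
  calc D * E * Dᴴ * (D * (Eᴴ * Dᴴ)) = D * (E * (Dᴴ * D) * Eᴴ) * Dᴴ := by
        simp only [Matrix.mul_assoc]
    _ = D * (E * Eᴴ) * Dᴴ := by rw [h2, Matrix.mul_one]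
    _ = 1 := by rw [h3, Matrix.mul_one, h1]

lemma WW_unit' {N : ℕ} (hN : 0 < N) : (WW N)ᴴ * WW N = 1 :=
  mul_eq_one_comm.1 (WW_unit hN)

lemma WW_apply {N : ℕ} (j k : Fin N) (r : ℝ) :
    WW N j k r = ∑ l : Fin N, DD N j l * ee ((l : ℝ) * (r / N)) * star (DD N k l) := by
  unfold WW
  rw [Matrix.mul_apply]
  simp only [Matrix.mul_diagonal, Matrix.conjTranspose_apply, Matrix.map_apply,
    ContinuousMap.sum_apply]
  rfl

lemma WW_int {N : ℕ} (hN : 0 < N) (j k : Fin N) (r : ℤ) :
    WW N j k (r : ℝ) = if (N : ℤ) ∣ (j : ℤ) - k + r then 1 else 0 := by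
  rw [WW_apply, DD_entry hN]

/-! ### functional calculus -/

section fc

variable {Q : Type} [CStarAlgebra Q]

/-- the homomorphism `f ↦ f(ρ)` on complex continuous functions of a real variable -/
def gg (ρ : Q) (hρ : IsSelfAdjoint ρ) : C(ℝ, ℂ) →⋆ₐ[ℂ] Q :=
  (cfcHom (R := ℂ) (a := ρ) hρ.isStarNormal).comp
    (ContinuousMap.compStarAlgHom' ℂ ℂ ⟨fun z : spectrum ℂ ρ => (z : ℂ).re, by fun_prop⟩)

lemma gg_apply (ρ : Q) (hρ : IsSelfAdjoint ρ) (f : C(ℝ, ℂ)) :
    gg ρ hρ f = cfc (fun z : ℂ => f z.re) ρ := by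
  rw [cfc_apply (fun z : ℂ => f z.re) ρ hρ.isStarNormal
    ((f.continuous.comp Complex.continuous_re).continuousOn)]
  rfl

/-- a real function as a complex function -/
def oR (G : C(ℝ, ℝ)) : C(ℝ, ℂ) := ⟨fun t => ((G t : ℝ) : ℂ), by fun_prop⟩

lemma gg_real (ρ : Q) (hρ : IsSelfAdjoint ρ) (G : C(ℝ, ℝ)) : gg ρ hρ (oR G) = cfc G ρ := by
  rw [gg_apply, cfc_real_eq_complex G hρ]
  rfl

/-- real and imaginary parts -/
def reC (f : C(ℝ, ℂ)) : C(ℝ, ℝ) := ⟨fun t => (f t).re, by fun_prop⟩
/-- imaginary part -/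
def imC (f : C(ℝ, ℂ)) : C(ℝ, ℝ) := ⟨fun t => (f t).im, by fun_prop⟩

lemma gg_re_im (ρ : Q) (hρ : IsSelfAdjoint ρ) (f : C(ℝ, ℂ)) :
    gg ρ hρ f = cfc (reC f) ρ + Complex.I • cfc (imC f) ρ := by
  rw [← gg_real ρ hρ, ← gg_real ρ hρ, ← map_smul, ← map_add]
  congr 1
  ext t
  simp only [ContinuousMap.add_apply, ContinuousMap.smul_apply, oR, reC, imC,
    ContinuousMap.coe_mk, smul_eq_mul]
  rw [mul_comm, Complex.re_add_im]

lemma gg_norm_le {ρ : Q} (hρ : PC ρ) (f : C(ℝ, ℂ)) {δ : ℝ} (hδ : 0 ≤ δ)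
    (h : ∀ t ∈ Set.Icc (0 : ℝ) 1, ‖f t‖ ≤ δ) : ‖gg ρ hρ.1 f‖ ≤ δ := by
  rw [gg_apply]
  refine norm_cfc_le hδ fun z hz => h _ ?_
  apply hρ.2
  rw [← hρ.1.spectrumRestricts.algebraMap_image] at hz
  obtain ⟨x, hx, rfl⟩ := hz
  simpa using hx

/-- if `t ρ = t` then `t f(ρ) = f(1) t` -/
lemma tcfc {t ρ : Q} (hρ : PC ρ) (ht : t * ρ = t) (f : C(ℝ, ℂ)) :
    t * gg ρ hρ.1 f = f 1 • t := by
  -- reduction to `f 1 = 0`
  have key : ∀ f : C(ℝ, ℂ), f 1 = 0 → t * gg ρ hρ.1 f = 0 := by
    intro f hf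
    have hid : gg ρ hρ.1 (oR (ContinuousMap.id ℝ)) = ρ := by
      rw [gg_real]
      exact cfc_id ℝ ρ hρ.1
    rw [← norm_le_zero_iff]
    have h2 : ∀ δ : ℝ, 0 < δ → ‖t * gg ρ hρ.1 f‖ ≤ ‖t‖ * δ := by
      intro δ hδ
      obtain ⟨η, hη, hfη⟩ := Metric.continuous_iff.1 f.continuous 1 δ hδ
      let mx : C(ℝ, ℝ) := ⟨fun s => (max (1 - s) (η / 2))⁻¹, by
        apply Continuous.inv₀ (by fun_prop)
        intro s
        exact (lt_of_lt_of_le (by positivity) (le_max_right _ _)).ne'⟩
      let on : C(ℝ, ℝ) := ⟨fun s => 1 - s, by fun_prop⟩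
      have e1 : f = oR on * (oR mx * f) + (f - oR on * (oR mx * f)) := by ring
      have e2 : t * gg ρ hρ.1 (oR on) = 0 := by
        have : oR on = 1 - oR (ContinuousMap.id ℝ) := by
          ext s
          simp [oR, on]
        rw [this, map_sub, map_one, hid, mul_sub, ht, mul_one, sub_self]
      rw [e1, map_add, map_mul, mul_add, ← mul_assoc, e2, zero_mul, zero_add]
      refine (norm_mul_le _ _).trans (mul_le_mul_of_nonneg_left ?_ (norm_nonneg _))
      refine gg_norm_le hρ _ hδ.le fun s hs => ?_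
      have e3 : (f - oR on * (oR mx * f)) s = ((1 - (1 - s) * (max (1 - s) (η / 2))⁻¹ : ℝ) : ℂ) *
          f s := by
        simp [oR, on, mx]
        ring
      rw [e3, norm_mul, Complex.norm_real, Real.norm_eq_abs]
      have hm : 0 < max (1 - s) (η / 2) := lt_of_lt_of_le (by positivity) (le_max_right _ _)
      by_cases hs2 : η / 2 ≤ 1 - s
      · rw [max_eq_left hs2, mul_inv_cancel₀ (by linarith), sub_self, abs_zero, zero_mul]
        exact hδ.le
      · push Not at hs2
        have h3 : ‖f s‖ < δ := by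
          have := hfη s (by
            rw [Real.dist_eq, abs_sub_comm, abs_of_nonneg (by linarith [hs.2])]
            linarith)
          rwa [dist_eq_norm, hf, sub_zero] at this
        have h4 : 0 ≤ (1 - s) * (max (1 - s) (η / 2))⁻¹ :=
          mul_nonneg (by linarith [hs.2]) (inv_nonneg.2 hm.le)
        have h5 : (1 - s) * (max (1 - s) (η / 2))⁻¹ ≤ 1 := by
          rw [← div_eq_mul_inv, div_le_one hm]
          exact le_max_left _ _
        have h6 : |1 - (1 - s) * (max (1 - s) (η / 2))⁻¹| ≤ 1 := by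
          rw [abs_le]
          constructor <;> linarith
        nlinarith [norm_nonneg (f s), abs_nonneg (1 - (1 - s) * (max (1 - s) (η / 2))⁻¹)]
    refine le_of_forall_pos_le_add fun ε hε => ?_
    have h3 := h2 (ε / (‖t‖ + 1)) (by positivity)
    refine h3.trans ?_
    rw [zero_add, mul_div_assoc', div_le_iff₀ (by positivity)]
    nlinarith [norm_nonneg t]
  have h := key (f - algebraMap ℂ C(ℝ, ℂ) (f 1)) (by simp)
  rw [map_sub, mul_sub, sub_eq_zero] at h
  rw [h]
  have : gg ρ hρ.1 (algebraMap ℂ C(ℝ, ℂ) (f 1)) = algebraMap ℂ Q (f 1) :=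
    (gg ρ hρ.1).toAlgHom.commutes (f 1)
  rw [this, Algebra.algebraMap_eq_smul_one, mul_smul_comm, mul_one]

/-- `∑ R_j a_jk R_k*` -/
def Sg {N : ℕ} (R : Fin N → Q) (a : Matrix (Fin N) (Fin N) Q) : Q :=
  ∑ j, ∑ k, R j * a j k * star (R k)

lemma Sg_add {N : ℕ} (R : Fin N → Q) (a b : Matrix (Fin N) (Fin N) Q) :
    Sg R (a + b) = Sg R a + Sg R b := by
  unfold Sg
  simp only [Matrix.add_apply, mul_add, add_mul, Finset.sum_add_distrib]

lemma Sg_zero {N : ℕ} (R : Fin N → Q) : Sg R (0 : Matrix (Fin N) (Fin N) Q) = 0 := by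
  simp [Sg]

lemma Sg_star {N : ℕ} (R : Fin N → Q) (a : Matrix (Fin N) (Fin N) Q) :
    star (Sg R a) = Sg R aᴴ := by
  unfold Sg
  simp only [star_sum, star_mul, star_star, Matrix.conjTranspose_apply]
  rw [Finset.sum_comm]
  simp only [mul_assoc]

/-- the relations of the corner -/
lemma Sg_mul {N : ℕ} (R : Fin N → Q) (a b : Matrix (Fin N) (Fin N) Q)
    (h : ∀ j k l m, a j k * star (R k) * (R l) * b l m = if k = l then a j k * b l m else 0) :
    Sg R a * Sg R b = Sg R (a * b) := by
  unfold Sg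
  have e1 : ∀ j m, R j * (a * b) j m * star (R m) =
      ∑ k, R j * (a j k * b k m) * star (R m) := by
    intro j m
    rw [Matrix.mul_apply, Finset.mul_sum, Finset.sum_mul]
  simp only [e1]
  rw [Finset.sum_mul]
  refine Finset.sum_congr rfl fun j _ => ?_
  rw [Finset.mul_sum]
  -- left: ∑ l, (∑ k, R j a_jk R_k*) * ∑ m, ...
  have e2 : ∀ l, (∑ k, R j * a j k * star (R k)) * ∑ m, R l * b l m * star (R m) =
      ∑ m, R j * (a j l * b l m) * star (R m) := by
    intro l
    rw [Finset.mul_sum]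
    refine Finset.sum_congr rfl fun m _ => ?_
    rw [Finset.sum_mul]
    have e3 : ∀ k, R j * a j k * star (R k) * (R l * b l m * star (R m)) =
        if k = l then R j * (a j k * b l m) * star (R m) else 0 := by
      intro k
      have := h j k l m
      calc R j * a j k * star (R k) * (R l * b l m * star (R m))
          = R j * (a j k * star (R k) * (R l) * b l m) * star (R m) := by
            simp only [mul_assoc]
        _ = _ := by
            rw [this]
            split_ifs
            · rfl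
            · simp
    simp only [e3]
    rw [Finset.sum_ite_eq' Finset.univ l]
    simp
  simp only [e2]
  rw [Finset.sum_comm]

lemma norm_bound {x y C : ℝ} (_ : 0 ≤ x) (hy : 0 ≤ y)
    (h : ∀ r : ℕ, x ^ (2 ^ r) ≤ C * y ^ (2 ^ r)) : x ≤ y := by
  by_contra hlt
  push Not at hlt
  rcases hy.eq_or_lt with rfl | hy
  · have := h 0
    norm_num at this
    linarith
  · have h1 : 1 < x / y := (one_lt_div hy).2 hlt
    obtain ⟨n, hn⟩ := pow_unbounded_of_one_lt C h1
    have h2 : (x / y) ^ n ≤ (x / y) ^ (2 ^ n) :=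
      pow_le_pow_right₀ h1.le (Nat.lt_two_pow_self).le
    have h3 := h n
    have h4 : (x / y) ^ (2 ^ n) ≤ C := by
      rw [div_pow, div_le_iff₀ (by positivity)]
      exact h3
    linarith

/-- the norm of a diagonal sum -/
lemma Sg_diag_norm {N : ℕ} (R : Fin N → Q) (e : Fin N → Q) {E : ℝ} (hE : 0 ≤ E)
    (he : ∀ j, star (e j) = e j) (hn : ∀ j, ‖e j‖ ≤ E)
    (h : ∀ n m : ℕ, ∀ k l, e k ^ (n + 1) * star (R k) * (R l) * e l ^ (m + 1) =
      if k = l then e k ^ (n + 1) * e l ^ (m + 1) else 0) :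
    ‖Sg R (Matrix.diagonal e)‖ ≤ E := by
  have hpow : ∀ n : ℕ, Sg R (Matrix.diagonal e) ^ (n + 1) =
      Sg R (Matrix.diagonal fun j => e j ^ (n + 1)) := by
    intro n
    induction n with
    | zero => simp
    | succ n ih =>
      rw [pow_succ, ih, Sg_mul, Matrix.diagonal_mul_diagonal]
      · simp only [pow_succ]
      · intro j k l m
        by_cases hjk : j = k
        · subst hjk
          by_cases hlm : l = m
          · subst hlm
            rw [Matrix.diagonal_apply_eq, Matrix.diagonal_apply_eq]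
            have := h n 0 j l
            simpa using this
          · rw [Matrix.diagonal_apply_ne _ hlm]
            simp
        · rw [Matrix.diagonal_apply_ne _ hjk]
          simp
  have hsum : ∀ n : ℕ, ‖Sg R (Matrix.diagonal fun j => e j ^ (n + 1))‖ ≤
      (∑ j, ‖R j‖ * ‖R j‖) * E ^ (n + 1) := by
    intro n
    have e1 : Sg R (Matrix.diagonal fun j => e j ^ (n + 1)) =
        ∑ j, R j * e j ^ (n + 1) * star (R j) := by
      unfold Sg
      refine Finset.sum_congr rfl fun j _ => ?_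
      rw [Finset.sum_eq_single j]
      · rw [Matrix.diagonal_apply_eq]
      · intro k _ hk
        rw [Matrix.diagonal_apply_ne _ (Ne.symm hk)]
        simp
      · simp
    rw [e1, Finset.sum_mul]
    refine (norm_sum_le _ _).trans (Finset.sum_le_sum fun j _ => ?_)
    refine (norm_mul_le _ _).trans ?_
    rw [norm_star]
    have h1 : ‖R j * e j ^ (n + 1)‖ ≤ ‖R j‖ * E ^ (n + 1) :=
      (norm_mul_le _ _).trans (mul_le_mul_of_nonneg_left
        ((norm_pow_le' _ (Nat.succ_pos n)).trans (pow_le_pow_left₀ (norm_nonneg _) (hn j) _))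
        (norm_nonneg _))
    calc ‖R j * e j ^ (n + 1)‖ * ‖R j‖ ≤ ‖R j‖ * E ^ (n + 1) * ‖R j‖ :=
          mul_le_mul_of_nonneg_right h1 (norm_nonneg _)
      _ = ‖R j‖ * ‖R j‖ * E ^ (n + 1) := by ring
  have hsa : IsSelfAdjoint (Sg R (Matrix.diagonal e)) := by
    rw [IsSelfAdjoint, Sg_star, Matrix.diagonal_conjTranspose]
    congr 2
    funext j
    exact he j
  refine norm_bound (norm_nonneg _) hE (C := ∑ j, ‖R j‖ * ‖R j‖) fun r => ?_
  have h1 : ‖Sg R (Matrix.diagonal e) ^ 2 ^ r‖ = ‖Sg R (Matrix.diagonal e)‖ ^ 2 ^ r :=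
    hsa.norm_pow_two_pow r
  rw [← h1]
  obtain ⟨n, hn'⟩ : ∃ n, 2 ^ r = n + 1 := Nat.exists_eq_succ_of_ne_zero (by positivity)
  rw [hn', hpow n]
  exact hsum n

end fc

theorem t_ZZ : S_ZZ := by
  intro Q _ M ι θ ρ c R E hρ hc hcG hR0 hcR hRR hθs hθρ hθd hθR hE hEd S hRS hGS
  classical
  have hN : 0 < M + 1 := Nat.succ_pos M
  -- corner elements
  have hcor : ∀ f : C(ℝ, ℂ), f 0 = 0 → c * gg ρ hρ.1 f = gg ρ hρ.1 f ∧
      gg ρ hρ.1 f * c = gg ρ hρ.1 f := by
    intro f hf
    have h1 := hcG (reC f) (reC f).continuous (by simp [reC, hf])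
    have h2 := hcG (imC f) (imC f).continuous (by simp [imC, hf])
    rw [gg_re_im]
    constructor
    · rw [mul_add, mul_smul_comm, h1.1, h2.1]
    · rw [add_mul, smul_mul_assoc, h1.2, h2.2]
  have hcρ : c * ρ = ρ ∧ ρ * c = ρ := by
    have := hcG (fun t => t) continuous_id rfl
    rwa [cfc_id' ℝ ρ hρ.1] at this
  -- the basic relation
  have hrel : ∀ (y z : Q), y * c = y → c * z = z → ∀ k l : Fin (M + 1),
      y * star (R k) * R l * z = if k = l then y * z else 0 := by
    intro y z hy hz k l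
    by_cases hk : (k : ℕ) = 0
    · by_cases hl : (l : ℕ) = 0
      · have hkl : k = l := by ext; omega
        rw [if_pos hkl, hk, hl, hR0]
        simp
      · have hkl : k ≠ l := by
          intro h; apply hl; rw [← h]; exact hk
        rw [if_neg hkl, hk, hR0, star_one, mul_one, ← hy, mul_assoc y c (R l),
          hcR l (by omega) (by omega)]
        simp
    · by_cases hl : (l : ℕ) = 0
      · have hkl : k ≠ l := by
          intro h; apply hk; rw [h]; exact hl
        have h1 : star (R k) * c = 0 := by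
          have := congrArg star (hcR k (by omega) (by omega))
          rwa [star_mul, hc, star_zero] at this
        rw [if_neg hkl, hl, hR0, mul_one, ← hz, mul_assoc y, ← mul_assoc (star (R k)), h1]
        simp
      · have h1 := hRR k l (by omega) (by omega) (by omega) (by omega)
        rw [mul_assoc y (star (R k)) (R l), h1]
        by_cases hkl : k = l
        · rw [if_pos hkl, if_pos (by rw [hkl]), ← mul_assoc, hy, hy]
        · rw [if_neg hkl, if_neg (fun h => hkl (Fin.ext h))]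
          simp
  let R' : Fin (M + 1) → Q := fun j => R j
  obtain ⟨w, hw⟩ : ∃ w : Matrix (Fin (M + 1)) (Fin (M + 1)) C(ℝ, ℂ), w = WW (M + 1) - 1 :=
    ⟨_, rfl⟩
  have hw0 : ∀ j k, w j k 0 = 0 := by
    intro j k
    have h1 := WW_int hN j k 0
    rw [Int.cast_zero, add_zero] at h1
    rw [hw, Matrix.sub_apply, ContinuousMap.sub_apply, h1, Matrix.one_apply]
    by_cases hjk : j = k
    · rw [if_pos (by rw [hjk]; simp), if_pos hjk]
      simp
    · rw [if_neg (fun h => hjk (dvd_small h)), if_neg hjk]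
      simp
  obtain ⟨x, hx⟩ : ∃ x : Matrix (Fin (M + 1)) (Fin (M + 1)) Q, x = w.map (gg ρ hρ.1) :=
    ⟨_, rfl⟩
  have hxc : ∀ j k, c * x j k = x j k ∧ x j k * c = x j k := by
    intro j k
    rw [hx, Matrix.map_apply]
    exact hcor _ (hw0 j k)
  have hxc' : ∀ j k, c * xᴴ j k = xᴴ j k ∧ xᴴ j k * c = xᴴ j k := by
    intro j k
    have h1 := hxc k j
    rw [Matrix.conjTranspose_apply]
    constructor
    · have := congrArg star h1.2
      rwa [star_mul, hc] at this
    · have := congrArg star h1.1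
      rwa [star_mul, hc] at this
  have hxH : xᴴ = wᴴ.map (gg ρ hρ.1) := by
    ext j k
    rw [hx, Matrix.conjTranspose_apply, Matrix.map_apply, Matrix.map_apply,
      Matrix.conjTranspose_apply, map_star]
  have hz1 : x + xᴴ + xᴴ * x = 0 := by
    have h1 : w + wᴴ + wᴴ * w = 0 := by
      have h2 := WW_unit' hN
      have h3 : WW (M + 1) = 1 + w := by rw [hw]; abel
      rw [h3, Matrix.conjTranspose_add, Matrix.conjTranspose_one] at h2
      have h4 : (1 + wᴴ) * (1 + w) = 1 + (w + wᴴ + wᴴ * w) := by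
        noncomm_ring
      rw [h4] at h2
      exact left_eq_add.1 h2.symm
    rw [hxH, hx, ← Matrix.map_mul, ← Matrix.map_add _ (map_add _), ← Matrix.map_add _ (map_add _),
      h1]
    exact Matrix.map_zero _ (map_zero _)
  have hz2 : x + xᴴ + x * xᴴ = 0 := by
    have h1 : w + wᴴ + w * wᴴ = 0 := by
      have h2 := WW_unit hN
      have h3 : WW (M + 1) = 1 + w := by rw [hw]; abel
      rw [h3, Matrix.conjTranspose_add, Matrix.conjTranspose_one] at h2
      have h4 : (1 + w) * (1 + wᴴ) = 1 + (w + wᴴ + w * wᴴ) := by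
        noncomm_ring
      rw [h4] at h2
      exact left_eq_add.1 h2.symm
    rw [hxH, hx, ← Matrix.map_mul, ← Matrix.map_add _ (map_add _), ← Matrix.map_add _ (map_add _),
      h1]
    exact Matrix.map_zero _ (map_zero _)
  have hstar : star (1 + Sg R' x) = 1 + Sg R' xᴴ := by
    rw [star_add, star_one, Sg_star]
  have hV1 : star (1 + Sg R' x) * (1 + Sg R' x) = 1 := by
    rw [hstar]
    have h1 : Sg R' xᴴ * Sg R' x = Sg R' (xᴴ * x) :=
      Sg_mul R' _ _ fun j k l m => hrel _ _ (hxc' j k).2 (hxc l m).1 k l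
    calc (1 + Sg R' xᴴ) * (1 + Sg R' x) = 1 + (Sg R' x + Sg R' xᴴ + Sg R' xᴴ * Sg R' x) := by
          noncomm_ring
      _ = 1 := by rw [h1, ← Sg_add, ← Sg_add, hz1, Sg_zero, add_zero]
  have hV2 : (1 + Sg R' x) * star (1 + Sg R' x) = 1 := by
    rw [hstar]
    have h1 : Sg R' x * Sg R' xᴴ = Sg R' (x * xᴴ) :=
      Sg_mul R' _ _ fun j k l m => hrel _ _ (hxc j k).2 (hxc' l m).1 k l
    calc (1 + Sg R' x) * (1 + Sg R' xᴴ) = 1 + (Sg R' x + Sg R' xᴴ + Sg R' x * Sg R' xᴴ) := by
          noncomm_ring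
      _ = 1 := by rw [h1, ← Sg_add, ← Sg_add, hz2, Sg_zero, add_zero]
  refine ⟨⟨1 + Sg R' x, hV1, hV2⟩, ?_, ?_⟩
  · -- membership
    show 1 + Sg R' x ∈ S
    refine add_mem (one_mem S) ?_
    unfold Sg
    refine sum_mem fun j _ => sum_mem fun k _ => ?_
    refine mul_mem (mul_mem (hRS j (by omega)) ?_) (star_mem (hRS k (by omega)))
    rw [hx, Matrix.map_apply, gg_re_im]
    exact add_mem (hGS _ (reC _).continuous) (S.smul_mem (hGS _ (imC _).continuous) _)
  · intro l
    show ‖θ 0 l * (1 + Sg R' x) - (1 + Sg R' x) * θ M l‖ ≤ E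
    -- the shifted family
    let θ' : Fin (M + 1) → Q := fun k => if (k : ℕ) = 0 then θ M l else θ k l
    have ha : ∀ j : Fin (M + 1), θ 0 l * R' j = R' j * θ j l := fun j => hθR j l (by omega)
    have hb : ∀ k : Fin (M + 1), star (R' k) * θ M l = θ' k * star (R' k) := by
      intro k
      by_cases hk : (k : ℕ) = 0
      · simp only [θ', R', if_pos hk, hk, hR0, star_one, one_mul, mul_one]
      · simp only [θ', R', if_neg hk]
        have h1 : (θ 0 l - θ M l) * R k = 0 := by
          rw [← hθd 0 M l (by omega) le_rfl, mul_assoc, ← hcρ.2, mul_assoc,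
            hcR k (by omega) (by omega)]
          simp
        have h2 : θ M l * R k = R k * θ k l := by
          rw [sub_mul, sub_eq_zero] at h1
          rw [← h1]
          exact ha k
        have := congrArg star h2
        rwa [star_mul, star_mul, hθs M l le_rfl, hθs k l (by omega)] at this
    have hcomm : ∀ (i : ℕ), i ≤ M → ∀ f : C(ℝ, ℂ), Commute (θ i l) (gg ρ hρ.1 f) := by
      intro i hi f
      rw [gg_apply]
      refine (Commute.cfc (hθρ i l hi).symm ?_ _).symm
      rw [hρ.1.star_eq]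
      exact (hθρ i l hi).symm
    -- the entries
    obtain ⟨z, hz⟩ : ∃ z : Matrix (Fin (M + 1)) (Fin (M + 1)) Q, z = fun (j k : Fin (M + 1)) =>
      if (k : ℕ) = j + 1 then θ j l - θ (j + 1) l else 0 := ⟨_, rfl⟩
    obtain ⟨e0, he0⟩ : ∃ e0 : Matrix (Fin (M + 1)) (Fin (M + 1)) Q, e0 = fun (j k : Fin (M + 1)) =>
      if (j : ℕ) = 0 ∧ (k : ℕ) = 0 then θ 0 l - θ M l else 0 := ⟨_, rfl⟩
    obtain ⟨y, hy⟩ : ∃ y : Matrix (Fin (M + 1)) (Fin (M + 1)) Q, y = fun (j k : Fin (M + 1)) =>
      θ j l * x j k - x j k * θ' k := ⟨_, rfl⟩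
    have hθ'd : ∀ j k : Fin (M + 1), (θ j l - θ' k) * ρ = θ j l - θ' k := by
      intro j k
      by_cases hk : (k : ℕ) = 0
      · simp only [θ', if_pos hk]
        exact hθd j M l (by omega) le_rfl
      · simp only [θ', if_neg hk]
        exact hθd j k l (by omega) (by omega)
    have hθ'c : ∀ (k : Fin (M + 1)) (f : C(ℝ, ℂ)), Commute (θ' k) (gg ρ hρ.1 f) := by
      intro k f
      by_cases hk : (k : ℕ) = 0
      · simp only [θ', if_pos hk]
        exact hcomm M le_rfl f
      · simp only [θ', if_neg hk]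
        exact hcomm k (by omega) f
    have hy1 : ∀ j k, y j k = w j k 1 • (θ j l - θ' k) := by
      intro j k
      rw [← tcfc hρ (hθ'd j k) (w j k), hy, hx]
      simp only [Matrix.map_apply]
      rw [← (hθ'c k (w j k)).eq, sub_mul]
    have hw1 : ∀ j k : Fin (M + 1), w j k 1 =
        (if ((M + 1 : ℕ) : ℤ) ∣ (j : ℤ) - k + 1 then 1 else 0) - (if j = k then 1 else 0) := by
      intro j k
      have h1 := WW_int hN j k 1
      rw [Int.cast_one] at h1
      rw [hw, Matrix.sub_apply, ContinuousMap.sub_apply, h1, Matrix.one_apply]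
      congr 1
      split_ifs <;> rfl
    have hyz : e0 + y = z := by
      ext j k
      rw [Matrix.add_apply, hy1, hw1, he0, hz]
      simp only [θ']
      have hj := j.2
      have hk := k.2
      by_cases c1 : (k : ℕ) = j + 1
      · have d1 : ((M + 1 : ℕ) : ℤ) ∣ (j : ℤ) - k + 1 := ⟨0, by omega⟩
        have d2 : j ≠ k := fun h => by rw [h] at c1; omega
        have d3 : ¬ ((j : ℕ) = 0 ∧ (k : ℕ) = 0) := by omega
        have d4 : ¬ (k : ℕ) = 0 := by omega
        rw [if_pos d1, if_neg d2, if_neg d3, if_neg d4, if_pos c1, ← c1]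
        simp
      · rw [if_neg c1]
        by_cases c2 : j = k
        · subst c2
          by_cases c3 : (j : ℕ) = 0
          · rw [if_pos ⟨c3, c3⟩, if_pos rfl, if_pos c3, c3]
            by_cases c4 : M = 0
            · subst c4
              simp
            · have d1 : ¬ ((M + 1 : ℕ) : ℤ) ∣ (j : ℤ) - j + 1 := by
                intro h
                have := Int.le_of_dvd (by omega) h
                omega
              rw [c3] at d1
              rw [if_neg d1]
              simp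
          · rw [if_neg (by omega), if_pos rfl, if_neg c3, sub_self (θ (j : ℕ) l), smul_zero,
              add_zero]
        · rw [if_neg c2]
          by_cases c3 : ((M + 1 : ℕ) : ℤ) ∣ (j : ℤ) - k + 1
          · have h1 : (j : ℤ) - k + 1 = M + 1 := by
              obtain ⟨t, ht⟩ := c3
              have h2 : t = 1 := by
                have h3 : (j : ℤ) - k + 1 ≤ M + 1 := by omega
                have h4 : -(M : ℤ) < (j : ℤ) - k + 1 := by omega
                have h5 : (j : ℤ) - k + 1 ≠ 0 := by omega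
                push_cast at ht
                rcases lt_trichotomy t 0 with h | h | h
                · nlinarith
                · rw [h] at ht; omega
                · by_contra hne
                  have : 2 ≤ t := by omega
                  nlinarith
              rw [ht, h2]
              push_cast
              ring
            have h2 : (j : ℕ) = M := by omega
            have h3 : (k : ℕ) = 0 := by omega
            have h4 : (j : ℕ) ≠ 0 := by
              intro h
              apply c2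
              ext
              omega
            rw [if_neg (by omega), if_pos c3, if_pos h3, h2, sub_self, smul_zero, add_zero]
          · rw [if_neg c3, sub_self, zero_smul, add_zero, if_neg]
            intro h
            apply c2
            ext
            omega
    have hSe0 : Sg R' e0 = θ 0 l - θ M l := by
      unfold Sg
      rw [Finset.sum_eq_single (0 : Fin (M + 1)), Finset.sum_eq_single (0 : Fin (M + 1))]
      · rw [he0]
        simp [R', hR0]
      · intro k _ hk
        rw [he0]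
        simp only
        rw [if_neg (fun h => hk (Fin.ext h.2))]
        simp
      · simp
      · intro j _ hj
        refine Finset.sum_eq_zero fun k _ => ?_
        rw [he0]
        simp only
        rw [if_neg (fun h => hj (Fin.ext h.1))]
        simp
      · simp
    have hmain : θ 0 l * (1 + Sg R' x) - (1 + Sg R' x) * θ M l = Sg R' z := by
      rw [← hyz, Sg_add, hSe0]
      have h1 : θ 0 l * Sg R' x - Sg R' x * θ M l = Sg R' y := by
        unfold Sg
        rw [Finset.mul_sum, Finset.sum_mul, ← Finset.sum_sub_distrib]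
        refine Finset.sum_congr rfl fun j _ => ?_
        rw [Finset.mul_sum, Finset.sum_mul, ← Finset.sum_sub_distrib]
        refine Finset.sum_congr rfl fun k _ => ?_
        rw [hy]
        simp only
        rw [← mul_assoc, ← mul_assoc, ha j, mul_assoc (R' j * x j k), hb k]
        noncomm_ring
      rw [mul_add, add_mul, mul_one, one_mul, ← h1]
      abel
    rw [hmain]
    -- the norm
    have hd1 : ∀ j : ℕ, j < M → (θ j l - θ (j + 1) l) * c = θ j l - θ (j + 1) l := by
      intro j hj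
      rw [← hθd j (j + 1) l (by omega) (by omega), mul_assoc, hcρ.2]
    have hdρ : ∀ j : ℕ, j < M → ρ * (θ j l - θ (j + 1) l) = θ j l - θ (j + 1) l := by
      intro j hj
      have h1 := (hθρ j l (by omega)).eq
      have h2 := (hθρ (j + 1) l (by omega)).eq
      rw [mul_sub, ← h1, ← h2, ← sub_mul]
      exact hθd j (j + 1) l (by omega) (by omega)
    have hd2 : ∀ j : ℕ, j < M → c * (θ j l - θ (j + 1) l) = θ j l - θ (j + 1) l := by
      intro j hj
      rw [← hdρ j hj, ← mul_assoc, hcρ.1]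
    have hds : ∀ j : ℕ, j < M → star (θ j l - θ (j + 1) l) = θ j l - θ (j + 1) l := by
      intro j hj
      rw [star_sub, hθs j l (by omega), hθs (j + 1) l (by omega)]
    let d : Fin (M + 1) → Q := fun j => if (j : ℕ) < M then θ j l - θ (j + 1) l else 0
    have hdc : ∀ j, c * d j = d j ∧ d j * c = d j ∧ star (d j) = d j ∧ ‖d j‖ ≤ E := by
      intro j
      by_cases hj : (j : ℕ) < M
      · simp only [d, if_pos hj]
        exact ⟨hd2 j hj, hd1 j hj, hds j hj, hEd j l hj⟩
      · simp only [d, if_neg hj]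
        simpa using hE
    have hzd : ∀ j k, z j k = if (k : ℕ) = j + 1 then d j else 0 := by
      intro j k
      rw [hz]
      simp only
      by_cases hk : (k : ℕ) = j + 1
      · rw [if_pos hk, if_pos hk]
        simp only [d]
        rw [if_pos (by omega)]
      · rw [if_neg hk, if_neg hk]
    have hzc : ∀ j k, c * z j k = z j k ∧ z j k * c = z j k := by
      intro j k
      rw [hzd]
      split_ifs
      · exact ⟨(hdc j).1, (hdc j).2.1⟩
      · simp
    have hzc' : ∀ j k, c * zᴴ j k = zᴴ j k := by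
      intro j k
      rw [Matrix.conjTranspose_apply]
      have := congrArg star (hzc k j).2
      rwa [star_mul, hc] at this
    have hzz : z * zᴴ = Matrix.diagonal (fun j => d j * d j) := by
      ext j m
      rw [Matrix.mul_apply]
      simp only [Matrix.conjTranspose_apply, hzd]
      by_cases hjm : j = m
      · subst hjm
        rw [Matrix.diagonal_apply_eq]
        by_cases hj : (j : ℕ) < M
        · rw [Finset.sum_eq_single (⟨(j : ℕ) + 1, by omega⟩ : Fin (M + 1))]
          · simp [(hdc j).2.2.1]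
          · intro k _ hk
            rw [if_neg (fun h => hk (Fin.ext h))]
            simp
          · simp
        · rw [Finset.sum_eq_zero]
          · simp only [d, if_neg hj, mul_zero]
          · intro k _
            rw [if_neg (by omega)]
            simp
      · rw [Matrix.diagonal_apply_ne _ hjm]
        refine Finset.sum_eq_zero fun k _ => ?_
        by_cases hk : (k : ℕ) = j + 1
        · rw [if_neg (fun h : (k : ℕ) = m + 1 => hjm (Fin.ext (by omega)))]
          simp
        · rw [if_neg hk]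
          simp
    have hDn : ‖Sg R' z‖ * ‖Sg R' z‖ ≤ E * E := by
      rw [← CStarRing.norm_self_mul_star, Sg_star,
        Sg_mul R' z zᴴ (fun j k l m => hrel _ _ (hzc j k).2 (hzc' l m) k l), hzz]
      refine Sg_diag_norm R' _ (mul_nonneg hE hE) (fun j => ?_) (fun j => ?_) ?_
      · rw [star_mul, (hdc j).2.2.1]
      · exact (norm_mul_le _ _).trans (mul_le_mul (hdc j).2.2.2 (hdc j).2.2.2 (norm_nonneg _) hE)
      · intro n m k l
        refine hrel _ _ ?_ ?_ k l
        · rw [pow_succ, mul_assoc, mul_assoc, (hdc k).2.1]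
        · rw [pow_succ', ← mul_assoc, ← mul_assoc, (hdc l).1]
    exact abs_le_of_sq_le_sq' (by nlinarith) hE |>.2

end Pool.Agent.N861.UN
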